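import Mathlib
import Pool.Agent.N752.HY.KPts
import Pool.Agent.N752.HY.Ext

/-!
# Vojta's conjecture for the root stacks of projective spaces along all reduced divisors, over all
# number fields: one exceptional set for all stacks

Let `K` be a number field, `m ≥ 1` (`m ≥ 2` if `K = ℚ`) and let `D_j : F_j = 0` (`1 ≤ j ≤ q`) be
distinct prime divisors of `ℙ^m` over `K`, `F_j` an irreducible form over `K` of degree `κ_j`. Their
number, singularities and intersections are arbitrary. Let `𝒳` be the root stack of `ℙ^m` of order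
`e_j ≥ 1` along `D_j` for all `j`, with coarse space `ℙ^m` (a smooth proper Deligne-Mumford stack if
the sum of the `D_j` with `e_j > 1` has simple normal crossings), and for a set `J` of indices let
`𝒟_J` be the sum of the stacky divisors above the `D_j`, `j ∈ J`. Then `K_𝒳 + 𝒟_J` is the pullback of
`K + ∑_{j ∈ J} D_j + ∑_{j ∉ J} (1 - 1 / e_j) D_j`, so that
`h_{K_𝒳 + 𝒟_J}(x) = (∑ κ_j - m - 1 - ∑_{j ∉ J} κ_j / e_j) h(x)`.

Let `L` be a number field which contains `K`, `S` a finite set of prime numbers and `x ∈ ℙ^m(K)` off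
the `D_j`. Then `x` comes from an integral point of `𝒳` over the ring of `S`-integers of `L` if for
every prime `w` of `L` not above `S` and all `j` the intersection number of `x` and `D_j` at `w`,
that is `log (|x|_w ^ κ_j / |F_j(x)|_w) / log N(w)`, is divisible by `e_j` (`Integral`).

**The weights.** `w_j = κ_j` if `D_j` is a hyperplane or a quadric. If `D_j` is, over the algebraic
closure of `K`, a union of `κ_j` conjugate hyperplanes whose linear forms span a space of dimension
`ρ_j`, then `w_j = κ_j` if `κ_j < 3 ρ_j` and `w_j = 2 ρ_j` if `κ_j ≥ 3 ρ_j`. Otherwise `w_j = 1`.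

We prove
`(θ - ∑_{j ∉ J} κ_j / e_j) h(x) + ∑_{j ∉ J} m_S(D_j, x) / e_j
    ≤ N_S^{(1)}(𝒟_J, x) + d(L) - d(K) + ∑_{p ∈ S} log p`,
`θ < ∑ w_j`, with truncated counting function and logarithmic discriminant over `L` and the proximity
function `m_S` (the local heights at the places above `S` and infinity), for ALL number fields
`L ⊇ K`, ALL finite `S`, ALL orders `e_j ≥ 1` such that `x` comes from an integral point of `𝒳` over
the `S`-integers of `L`, and ALL `J`:
(1) for all `x ∈ ℙ^m(K)`, outside of ONE set `E₀` of density zero, the same for ALL families of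
prime divisors `D_j`, with `h(x) > T`, `T` depending on the `D_j` and on `θ`;
(2) for given `D_j` and `θ` for all but `C B ^ ([K : ℚ] (m + 1) - c)` of the `x` with
`h(x) ≤ log B`, `c > 0`, whereas there are about `B ^ ([K : ℚ] (m + 1))` points.

So we obtain the inequality `h_{K_𝒳 + 𝒟_J}(x) ≤ N_S^{(1)}(𝒟_J, x) + ε h(x) + d(L) + O(1)` whenever
`∑ (κ_j - w_j) ≤ m + 1`, with `(m + 1 - ε) h(x)` to spare if `w_j = κ_j` for all `j`, for instance if
all `D_j` are hyperplanes or quadrics. We may add to the left hand side `Λ` times the heights relative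
to ideals `(F'_l, G'_l)` of codimension two, `Λ` as large as we like; on a smooth variety birational to
`ℙ^m` the heights of the divisors contracted in `ℙ^m` are bounded by multiples of such heights, so
that the result concerns the root stacks over the embedded resolutions of `∑ D_j` as well.

The starting theorems `StackyProjectiveSpaces` and `StackyArrangements` are about hyperplanes over
`K`. Proof: over `K` the inequality is a starting theorem (`MP_9ec3f0_nt.AllDivisorsNumberFields`, by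
helper752). The truncated counting function over `K` is bounded by the logarithmic discriminant of
`L / K` and the truncated counting function over `L`, of which the primes where `x` meets some `D_j`,
`j ∉ J`, make up at most `(κ_j h(x) - m_S(D_j, x)) / e_j` each (`Pool.Agent.N752.HY.Ext`).
-/

set_option autoImplicit false

namespace Pool.Agent.Results.MP_a41896_nt.AllReducedDivisors

open NumberField IsDedekindDomain Module MvPolynomial
open scoped LinearAlgebra.Projectivization
open Pool.Agent.N752.SU (DensityZero)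
open Pool.Agent.N752.HY
open Pool.Agent.R366.NF (idealHeight)

/-- the points of `ℙ^m(K)` of absolute logarithmic height at most `T` -/
def Points (K : Type) [Field K] [NumberField K] (m : ℕ) (T : ℝ) :
    Set (ℙ K (Fin (m + 1) → K)) :=
  {Q | hgt Q.rep ≤ T}

/-- The inequality for all root stacks at the point `Q`: no `F_j` vanishes at `Q`, and for ALL number
fields `L` which contain `K`, ALL finite sets `S` of primes, ALL orders `e_j ≥ 1` such that `Q` comes
from an integral point over the `S`-integers of `L` of the root stack of order `e_j` along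
`F_j = 0`, and ALL sets `J` of indices
`(θ - ∑_{j ∉ J} κ_j / e_j) h(Q) + ∑_{j ∉ J} m_S(D_j, Q) / e_j + Λ ∑_l h_{(F'_l, G'_l)}(Q)
    ≤ N_S^{(1)}(𝒟_J, Q) + d(L) - d(K) + ∑_{p ∈ S} log p`. -/
def StackInequality {K : Type} [Field K] [NumberField K] {m q t : ℕ}
    (F : Fin q → MvPolynomial (Fin (m + 1)) (𝓞 K)) (κ : Fin q → ℕ)
    (F' G' : Fin t → MvPolynomial (Fin (m + 1)) (𝓞 K)) (κ' ε' : Fin t → ℕ) (Λ : ℕ) (θ : ℝ)
    (Q : ℙ K (Fin (m + 1) → K)) : Prop :=
  (∀ j, aeval Q.rep (F j) ≠ 0) ∧
  ∀ (L : Type) [Field L] [NumberField L] [Algebra K L] (S : Finset ℕ) (e : Fin q → ℕ),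
    (∀ p ∈ S, p.Prime) → (∀ j, 1 ≤ e j) → Integral L S F κ e Q.rep → ∀ J : Finset (Fin q),
      (θ - ∑ j ∈ Jᶜ, (κ j : ℝ) / e j) * hgt Q.rep + ∑ j ∈ Jᶜ, prox L S (F j) (κ j) Q.rep / e j +
          Λ * ∑ l, idealHeight (F' l) (G' l) (κ' l) (ε' l) Q.rep / finrank ℚ K ≤
        cnt L S F κ J Q.rep + (ldisc L - ldisc K) + ∑ p ∈ S, Real.log p

/-- **Vojta's conjecture for the root stacks of projective spaces along all reduced divisors.** Let
`K` be a number field with an embedding `φ` in the complex numbers, `n = [K : ℚ]`, `m ≥ 1` and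
`n (m + 1) ≥ 3`. There is ONE set `E₀` of points of `ℙ^m(K)`, of density zero (with respect to the
height), such that for ALL finite families of forms `F_j` over `K`, of degrees `κ_j`, irreducible
over `K` and pairwise not associated, ALL admissible weights `w_j` of the `F_j` (`HasW`: `w_j ≤ 1`,
or `w_j ≤ κ_j ≤ 2`, or `F_j` is over `ℂ` a product of linear forms which span a space of dimension
`ρ_j`, with `w_j ≤ κ_j` if `κ_j < 3 ρ_j`, `w_j ≤ 2 ρ_j` if `κ_j ≥ 3 ρ_j`), ALL finite families of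
pairs of forms `F'_l, G'_l` over `K`, `F'_l` irreducible over `K` and not a divisor of `G'_l`, ALL
natural numbers `Λ` and ALL `θ < ∑ w_j`:

(1) there is `T` such that ALL points `Q ∉ E₀` with `h(Q) > T` satisfy: no `F_j(Q)` is zero, and for
ALL number fields `L ⊇ K`, ALL finite sets `S` of primes, ALL orders `e_j ≥ 1` such that `Q` comes
from an integral point over the `S`-integers of `L` of the root stack, and ALL `J`
`(θ - ∑_{j ∉ J} κ_j / e_j) h(Q) + ∑_{j ∉ J} m_S(D_j, Q) / e_j + Λ ∑_l h_{(F'_l, G'_l)}(Q)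
    ≤ N_S^{(1)}(𝒟_J, Q) + d(L) - d(K) + ∑_{p ∈ S} log p`;

(2) there are `c > 0` and `C` such that for all `T ≥ 0` at most `C exp ((n (m + 1) - c) T)` points
`Q` with `h(Q) ≤ T` do not satisfy this. -/
theorem result (K : Type) [Field K] [NumberField K] (φ : K →+* ℂ) (m : ℕ) (hm : 1 ≤ m)
    (hd : 3 ≤ finrank ℚ K * (m + 1)) :
    ∃ E₀ : Set (ℙ K (Fin (m + 1) → K)), DensityZero (Points K m) E₀ ∧
      ∀ (q t : ℕ) (F : Fin q → MvPolynomial (Fin (m + 1)) (𝓞 K)) (κ w : Fin q → ℕ)
        (F' G' : Fin t → MvPolynomial (Fin (m + 1)) (𝓞 K)) (κ' ε' : Fin t → ℕ),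
        (∀ j, (F j).IsHomogeneous (κ j)) →
        (∀ j, Irreducible (map (algebraMap (𝓞 K) K) (F j))) →
        (∀ i j, i ≠ j →
          ¬ Associated (map (algebraMap (𝓞 K) K) (F i)) (map (algebraMap (𝓞 K) K) (F j))) →
        (∀ j, HasW (map (φ.comp (algebraMap (𝓞 K) K)) (F j)) (κ j) (w j)) →
        (∀ l, (F' l).IsHomogeneous (κ' l)) → (∀ l, (G' l).IsHomogeneous (ε' l)) →
        (∀ l, Irreducible (map (algebraMap (𝓞 K) K) (F' l))) →
        (∀ l, ¬ map (algebraMap (𝓞 K) K) (F' l) ∣ map (algebraMap (𝓞 K) K) (G' l)) →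
        ∀ (Λ : ℕ) (θ : ℝ), θ < ∑ j, (w j : ℝ) →
          (∃ T : ℝ, ∀ Q : ℙ K (Fin (m + 1) → K), Q ∉ E₀ → T < hgt Q.rep →
            StackInequality F κ F' G' κ' ε' Λ θ Q) ∧
          ∃ c C : ℝ, 0 < c ∧ ∀ T : ℝ, 0 ≤ T →
            {Q | Q ∈ Points K m T ∧ ¬ StackInequality F κ F' G' κ' ε' Λ θ Q}.Finite ∧
            ({Q | Q ∈ Points K m T ∧ ¬ StackInequality F κ F' G' κ' ε' Λ θ Q}.ncard : ℝ) ≤
              C * Real.exp (((finrank ℚ K : ℝ) * (m + 1) - c) * T) := by
  obtain ⟨E₀, hE₀, hall⟩ := KPts.univK (K := K) (m := m) φ hm hd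
  refine ⟨E₀, hE₀, ?_⟩
  intro q t F κ w F' G' κ' ε' h1 h2 h3 h4 h5 h6 h7 h8 Λ θ hθ
  have hA : KPts.AdmK φ F κ w F' G' κ' ε' := ⟨h1, h2, h3, h4, h5, h6, h7, h8⟩
  have key : ∀ Q : ℙ K (Fin (m + 1) → K), Good F κ F' G' κ' ε' Λ θ Q.rep →
      StackInequality F κ F' G' κ' ε' Λ θ Q := by
    rintro Q ⟨g1, g2⟩
    refine ⟨g1, fun L _ _ _ S e hS he hint J => ?_⟩
    have g3 := Ext.t_EXT K inferInstance inferInstance L inferInstance inferInstance inferInstance
      m q F κ Q.rep S e J h1 Q.rep_nonzero g1 hS he hint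
    have g4 : ∑ j ∈ Jᶜ, prox L S (F j) (κ j) Q.rep / e j =
        ∑ j ∈ Jᶜ, 1 / (e j : ℝ) * prox L S (F j) (κ j) Q.rep :=
      Finset.sum_congr rfl fun j _ => by ring
    rw [← Finset.sum_div, g4, sub_mul]
    linarith
  constructor
  · obtain ⟨T, hT⟩ := hall q t F κ w F' G' κ' ε' hA Λ θ hθ
    exact ⟨T, fun Q hQE hTQ => key Q (hT Q hQE hTQ)⟩
  · obtain ⟨c, C, hc, h⟩ := KPts.few_of_aa
      (KPts.aa_of_adm φ hd hA (Λ : ℝ) (Nat.cast_nonneg _) θ hθ)
    refine ⟨c, C, hc, fun T hT => ⟨(KPts.pts_fin T).subset fun Q hQ => hQ.1, ?_⟩⟩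
    refine le_trans ?_ (h T hT)
    have hsub : {Q | Q ∈ Points K m T ∧ ¬ StackInequality F κ F' G' κ' ε' Λ θ Q} ⊆
        {Q : ℙ K (Fin (m + 1) → K) | ¬ Good F κ F' G' κ' ε' Λ θ Q.rep} ∩ KPts.Pts K m T := by
      rintro Q ⟨hQ1, hQ2⟩
      exact ⟨fun hg => hQ2 (key Q hg), hQ1⟩
    exact_mod_cast Set.ncard_le_ncard hsub ((KPts.pts_fin T).subset Set.inter_subset_right)

end Pool.Agent.Results.MP_a41896_nt.AllReducedDivisors
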